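import Pool.Agent.T9h88.IP.Spec
import Pool.Agent.T9h67.IO.Grow

/-!
# An iterative root of the exponential function
-/

set_option autoImplicit false

namespace Pool.Agent.T9h84.IP

open Pool.Agent.T9h88.IO Pool.Agent.T9h88.IP
open Pool.Agent.T9h67.IO.Grow (tw_succ' tw_add tw_mono' le_tw')

/-- the thresholds -/
def thr (a m n : ℕ) : ℕ := tw (n / m) (a + n % m)

theorem tw_succ_in (j x : ℕ) : tw (j + 1) x = tw j (2 ^ x) := by
  unfold tw
  rw [Function.iterate_succ_apply]

theorem tw_strict (j : ℕ) {x y : ℕ} (h : x < y) : tw j x < tw j y := by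
  induction j with
  | zero => exact h
  | succ j ih =>
    rw [tw_succ', tw_succ']
    exact Nat.pow_lt_pow_right (by norm_num) ih

theorem thr_add (a m n : ℕ) (hm : 0 < m) : thr a m (n + m) = 2 ^ thr a m n := by
  unfold thr
  rw [Nat.add_div_right _ hm, Nat.add_mod_right, ← tw_succ']

theorem thr_mul (a m j i : ℕ) (hi : i < m) : thr a m (j * m + i) = tw j (a + i) := by
  unfold thr
  have h1 : (j * m + i) / m = j := by
    rw [mul_comm, Nat.mul_add_div (by omega), Nat.div_eq_of_lt hi, add_zero]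
  have h2 : (j * m + i) % m = i := by
    rw [mul_comm, Nat.mul_add_mod, Nat.mod_eq_of_lt hi]
  rw [h1, h2]

theorem thr_lt (a m n : ℕ) (hm : 0 < m) (ham : a + m = 2 ^ a) :
    thr a m n < thr a m (n + 1) := by
  obtain ⟨j, i, hi, rfl⟩ : ∃ j i, i < m ∧ n = j * m + i :=
    ⟨n / m, n % m, Nat.mod_lt _ hm, by rw [mul_comm]; exact (Nat.div_add_mod n m).symm⟩
  rw [thr_mul a m j i hi]
  by_cases h : i + 1 < m
  · rw [add_assoc, thr_mul a m j (i + 1) h]
    exact tw_strict j (by omega)
  · have h1 : i + 1 = m := by omega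
    have h2 : j * m + i + 1 = (j + 1) * m + 0 := by
      rw [add_assoc, h1]
      ring
    rw [h2, thr_mul a m (j + 1) 0 hm, add_zero, tw_succ_in]
    exact tw_strict j (by omega)

theorem root (k : ℕ) : ∃ a₀, ∀ a ≥ a₀, ∃ g : ℕ → ℕ, Monotone g ∧ (∀ x, g^[k] x ≤ 2 ^ x) ∧
    ∀ j, tw j (a + 3) ≤ g (tw j a) := by
  refine ⟨3 * k + 5, fun a ha => ?_⟩
  obtain ⟨m, hm⟩ : ∃ m, m = 2 ^ a - a := ⟨_, rfl⟩
  have h2a : 2 * a ≤ 2 ^ a := by
    obtain ⟨b, rfl⟩ : ∃ b, a = b + 1 := ⟨a - 1, by omega⟩
    rw [pow_succ, mul_comm]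
    have : b < 2 ^ b := Nat.lt_two_pow_self
    omega
  have ham : a + m = 2 ^ a := by omega
  have hmk : 3 * k + 5 ≤ m := by omega
  have hm0 : 0 < m := by omega
  have hmono : StrictMono (thr a m) := strictMono_nat_of_lt_succ fun n => thr_lt a m n hm0 ham
  have hex : ∀ x, ∃ n, x ≤ thr a m n := fun x => ⟨x, hmono.le_apply⟩
  classical
  obtain ⟨g, hg⟩ : ∃ g : ℕ → ℕ, g = fun x => if x < a then x else
    thr a m (Nat.find (hex x) + 3) := ⟨_, rfl⟩
  have hg1 : ∀ x, x < a → g x = x := by
    intro x hx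
    rw [hg]
    exact if_pos hx
  have hg2 : ∀ x, ¬ x < a → g x = thr a m (Nat.find (hex x) + 3) := by
    intro x hx
    rw [hg]
    exact if_neg hx
  have h0 : thr a m 0 = a := by
    have := thr_mul a m 0 0 hm0
    simpa [tw] using this
  have hage : ∀ n, a ≤ thr a m n := by
    intro n
    have := hmono.monotone (Nat.zero_le n)
    rwa [h0] at this
  have hfind : ∀ n, Nat.find (hex (thr a m n)) = n := by
    intro n
    rw [Nat.find_eq_iff]
    refine ⟨le_rfl, fun i hi => ?_⟩
    rw [not_le]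
    exact hmono hi
  have hgs : ∀ n, g (thr a m n) = thr a m (n + 3) := by
    intro n
    rw [hg2 _ (not_lt.2 (hage n)), hfind]
  have hit : ∀ i n, g^[i] (thr a m n) = thr a m (n + 3 * i) := by
    intro i
    induction i with
    | zero => intro n; rfl
    | succ i ih =>
      intro n
      rw [Function.iterate_succ_apply, hgs, ih]
      congr 1
      ring
  refine ⟨g, ?_, ?_, ?_⟩
  · intro x y hxy
    by_cases hx : x < a
    · rw [hg1 x hx]
      by_cases hy : y < a
      · rw [hg1 y hy]
        exact hxy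
      · rw [hg2 y hy]
        exact hx.le.trans (hage _)
    · have hy : ¬ y < a := by omega
      rw [hg2 x hx, hg2 y hy]
      apply hmono.monotone
      have : Nat.find (hex x) ≤ Nat.find (hex y) :=
        Nat.find_min' _ (hxy.trans (Nat.find_spec (hex y)))
      omega
  · intro x
    by_cases hx : x < a
    · rw [Function.iterate_fixed (hg1 x hx)]
      exact Nat.lt_two_pow_self.le
    · rcases Nat.eq_zero_or_pos k with hk | hk
      · subst hk
        exact Nat.lt_two_pow_self.le
      obtain ⟨k', rfl⟩ : ∃ k', k = k' + 1 := ⟨k - 1, by omega⟩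
      obtain ⟨n, hn⟩ : ∃ n, n = Nat.find (hex x) := ⟨_, rfl⟩
      rw [Function.iterate_succ_apply, hg2 x hx, ← hn, hit]
      rcases Nat.eq_zero_or_pos n with hn0 | hn0
      · have h1 : x = a := by
          have h2 := Nat.find_spec (hex x)
          rw [← hn, hn0, h0] at h2
          omega
        rw [hn0, h1]
        calc thr a m (0 + 3 + 3 * k') ≤ thr a m (0 + m) := hmono.monotone (by omega)
          _ = 2 ^ thr a m 0 := thr_add a m 0 hm0
          _ = 2 ^ a := by rw [h0]
      · obtain ⟨n', rfl⟩ : ∃ n', n = n' + 1 := ⟨n - 1, by omega⟩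
        have h1 : thr a m n' < x := by
          have := Nat.find_min (hex x) (m := n') (by omega)
          omega
        calc thr a m (n' + 1 + 3 + 3 * k') ≤ thr a m (n' + m) := hmono.monotone (by omega)
          _ = 2 ^ thr a m n' := thr_add a m n' hm0
          _ ≤ 2 ^ x := Nat.pow_le_pow_right (by norm_num) h1.le
  · intro j
    have h1 : tw j a = thr a m (j * m + 0) := by
      rw [thr_mul a m j 0 hm0, add_zero]
    rw [h1, hgs, add_zero, thr_mul a m j 3 (by omega)]

end Pool.Agent.T9h84.IP
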