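import Pool.Agent.T9h88.IP.Spec
import Pool.Agent.T9h67.IO.Grow

/-!
# Growth estimates for the towers (W10)
-/

set_option autoImplicit false

namespace Pool.Agent.T9h84.IP

open Pool.Agent.T9h88.IO Pool.Agent.T9h88.IP
open Pool.Agent.T9h67.IO.Grow (tw_succ' tw_add tw_mono' le_tw' two_mul_tw sq_tw mul_tw)

theorem pb_le (C X s : ℕ) : pb C (2 ^ X + 2 + 4 ^ s) ≤ 2 ^ (C * (X + 2 * s + 3)) := by
  rw [pb, mul_comm C, pow_mul 2 (X + 2 * s + 3) C]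
  refine Nat.pow_le_pow_left ?_ _
  have h1 : 2 ^ X ≤ 2 ^ (X + 2 * s) := Nat.pow_le_pow_right (by norm_num) (by omega)
  have h2 : 1 ≤ 2 ^ (X + 2 * s) := Nat.one_le_two_pow
  have h3 : 4 ^ s ≤ 2 ^ (X + 2 * s) := by
    have : (4 : ℕ) ^ s = 2 ^ (2 * s) := by rw [pow_mul]; norm_num
    rw [this]
    exact Nat.pow_le_pow_right (by norm_num) (by omega)
  have h4 : 2 ^ (X + 2 * s + 3) = 8 * 2 ^ (X + 2 * s) := by ring
  omega

/-- powers -/
theorem pow_tw (K u i : ℕ) (hi : 3 ≤ i) (hK : K + 3 ≤ i) : (tw i u) ^ K ≤ tw i (u + 1) := by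
  obtain ⟨i, rfl⟩ : ∃ k, i = k + 1 := ⟨i - 1, by omega⟩
  rw [tw_succ', tw_succ', ← pow_mul]
  refine Nat.pow_le_pow_right (by norm_num) ?_
  rw [mul_comm]
  exact mul_tw _ _ _ (by omega) (by have := le_tw' u i; omega)

theorem growA : GrowA := by
  intro C₀ C a
  refine ⟨2 * C₀ + C + 16, fun j hj => ?_⟩
  rw [tw_succ' (a + 2), tw_succ' (a + 3)]
  set Y := tw j (a + 2) with hY
  have hY1 : j + (a + 2) ≤ Y := le_tw' (a + 2) j
  refine le_trans (pb_le _ _ _) (Nat.pow_le_pow_right (by norm_num) ?_)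
  have h1 : Y ^ (2 * C₀ + 4) ≤ tw j (a + 3) := pow_tw _ _ _ (by omega) (by omega)
  refine le_trans ?_ h1
  have h2 : pb C₀ (2 * Y) ≤ Y ^ (2 * C₀) := by
    rw [pb, pow_mul]
    exact Nat.pow_le_pow_left (by nlinarith) _
  have h3 : 1 ≤ Y ^ (2 * C₀) := Nat.one_le_pow _ _ (by omega)
  have h4 : Y + 2 * (pb C₀ (2 * Y) + 1) + 3 ≤ Y ^ (2 * C₀) * Y ^ 3 := by
    have h5 : Y + 2 * (pb C₀ (2 * Y) + 1) + 3 ≤ Y + 2 * Y ^ (2 * C₀) + 5 := by omega
    refine h5.trans ?_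
    have h6 : Y + 7 ≤ Y ^ 3 := by
      have : 16 ≤ Y := by omega
      calc Y + 7 ≤ Y * Y := by nlinarith
        _ ≤ Y * Y * Y := Nat.le_mul_of_pos_right _ (by omega)
        _ = Y ^ 3 := by ring
    calc Y + 2 * Y ^ (2 * C₀) + 5 ≤ Y ^ (2 * C₀) * Y + 2 * Y ^ (2 * C₀) + 5 * Y ^ (2 * C₀) := by
          nlinarith [Nat.mul_le_mul_right Y h3]
      _ = Y ^ (2 * C₀) * (Y + 7) := by ring
      _ ≤ _ := Nat.mul_le_mul_left _ h6
  calc C * (Y + 2 * (pb C₀ (2 * Y) + 1) + 3) ≤ Y * (Y ^ (2 * C₀) * Y ^ 3) :=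
        Nat.mul_le_mul (by omega) h4
    _ = Y ^ (2 * C₀ + 4) := by ring

theorem growB : GrowB := by
  intro C₀ C b L c hL
  refine ⟨2 * C₀ + 2 * C + c + 16, fun j hj => ?_⟩
  have e1 : tw (j + 1) (b + L) = 2 ^ tw j (b + L) := tw_succ' _ _
  have e2 : tw (j + 1) b = 2 ^ tw j b := tw_succ' _ _
  have e3 : tw (j + 1) (b + L + 2) = 2 ^ tw j (b + L + 2) := tw_succ' _ _
  rw [e1, e2, e3]
  set X := tw j (b + L) with hX
  set Y := tw j b with hY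
  have hY1 : j + b ≤ Y := le_tw' b j
  have hX1 : j + (b + L) ≤ X := le_tw' (b + L) j
  refine le_trans (pb_le _ _ _) (Nat.pow_le_pow_right (by norm_num) ?_)
  -- the inner bound
  have h1 : pb C₀ (c + 2 ^ Y) + 1 ≤ X := by
    have h2 : c + 2 ^ Y + 2 ≤ 2 ^ (Y + 1) := by
      have : c + 2 ≤ 2 ^ Y := by
        have := (Nat.lt_two_pow_self (n := Y))
        omega
      rw [pow_succ]
      omega
    have h3 : pb C₀ (c + 2 ^ Y) ≤ 2 ^ ((Y + 1) * C₀) := by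
      rw [pb, pow_mul]
      exact Nat.pow_le_pow_left h2 _
    have h4 : (Y + 1) * C₀ + 1 ≤ tw j (b + 1) := by
      calc (Y + 1) * C₀ + 1 ≤ (2 * C₀ + 1) * Y := by nlinarith
        _ ≤ tw j (b + 1) := mul_tw _ _ _ (by omega) (by omega)
    have h5 : 2 ^ tw j (b + 1) ≤ X := by
      rw [← tw_succ' (b + 1) j, tw_add j 1 (b + 1)]
      exact tw_mono' _ hL
    have h6 : 2 ^ ((Y + 1) * C₀ + 1) ≤ 2 ^ tw j (b + 1) :=
      Nat.pow_le_pow_right (by norm_num) h4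
    have h7 : 1 ≤ 2 ^ ((Y + 1) * C₀) := Nat.one_le_two_pow
    rw [pow_succ] at h6
    omega
  calc C * (X + 2 * (pb C₀ (c + 2 ^ Y) + 1) + 3) ≤ X * (X + 2 * X + 3) :=
        Nat.mul_le_mul (by omega) (by omega)
    _ ≤ X ^ 3 := by
        have : 16 ≤ X := by omega
        calc X * (X + 2 * X + 3) ≤ X * (X * X) := Nat.mul_le_mul_left _ (by nlinarith)
          _ = X ^ 3 := by ring
    _ ≤ tw j (b + L + 1) := pow_tw _ _ _ (by omega) (by omega)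
    _ ≤ tw j (b + L + 2) := tw_mono' _ (by omega)

theorem four_le (j a : ℕ) (ha : 1 ≤ a) : 4 ∣ tw (j + 2) a ∧ 4 ≤ tw (j + 2) a := by
  rw [tw_succ' a (j + 1)]
  have h := le_tw' a (j + 1)
  obtain ⟨t, ht⟩ : ∃ t, tw (j + 1) a = 2 + t := ⟨tw (j + 1) a - 2, by omega⟩
  rw [ht, pow_add]
  have : 1 ≤ 2 ^ t := Nat.one_le_two_pow
  constructor
  · exact ⟨2 ^ t, by norm_num⟩
  · omega

theorem growC : GrowC := by
  refine ⟨?_, ?_, ?_, ?_, ?_, ?_⟩
  · intro j hj a ha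
    obtain ⟨j, rfl⟩ : ∃ k, j = k + 2 := ⟨j - 2, by omega⟩
    rw [tw_succ' a (j + 2), ← pow_mul, Nat.div_mul_cancel (four_le j a ha).1]
  · intro j hj a ha
    obtain ⟨j, rfl⟩ : ∃ k, j = k + 2 := ⟨j - 2, by omega⟩
    rw [Nat.le_div_iff_mul_le (by norm_num), mul_comm]
    exact mul_tw _ _ _ (by omega) (four_le j a ha).2
  · intro i a
    have := le_tw' a i
    omega
  · intro i a
    have := le_tw' a i
    omega
  · intro i a b h
    exact tw_mono' i h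
  · intro a
    refine strictMono_nat_of_lt_succ fun i => ?_
    show tw i a < tw (i + 1) a
    rw [tw_succ' a i]
    exact Nat.lt_two_pow_self

end Pool.Agent.T9h84.IP
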